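import Mathlib

/-!
# The McMullen problem for point sets of Lawrence type

Every set of `n` points of Lawrence type in `ℝ^d` with `d + 1 ≤ n ≤ 5 d / 2` can be mapped by a
permissible projective transformation onto the vertex set of a convex polytope.
-/

namespace Pool.Agent.Results.MP_1e71f9_co.LawrenceType

/-! ## Definitions -/

/-- The projective map `x ↦ (A x + b) / (⟨c, x⟩ + δ)`. -/
noncomputable def projMap {d : ℕ} (A : Matrix (Fin d) (Fin d) ℝ) (b c : Fin d → ℝ) (δ : ℝ)
    (x : Fin d → ℝ) : Fin d → ℝ :=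
  (c ⬝ᵥ x + δ)⁻¹ • (A.mulVec x + b)

/-- The `(d+1) × (d+1)` matrix `(A, b; cᵀ, δ)` of the projective map. -/
def projMatrix {d : ℕ} (A : Matrix (Fin d) (Fin d) ℝ) (b c : Fin d → ℝ) (δ : ℝ) :
    Matrix (Fin d ⊕ Unit) (Fin d ⊕ Unit) ℝ :=
  Matrix.fromBlocks A (Matrix.of fun i _ => b i) (Matrix.of fun _ j => c j)
    (Matrix.of fun _ _ => δ)

/-- `S` can be mapped onto the vertex set of a convex polytope by a projective transformation
(invertible matrix) which is permissible for `S` (the denominator vanishes at no point of `S`):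
every point of the image `T(S)` is an extreme point of `conv T(S)`. -/
def MapsToVertices {d : ℕ} (S : Finset (Fin d → ℝ)) : Prop :=
  ∃ (A : Matrix (Fin d) (Fin d) ℝ) (b c : Fin d → ℝ) (δ : ℝ),
    (projMatrix A b c δ).det ≠ 0 ∧ (∀ x ∈ S, c ⬝ᵥ x + δ ≠ 0) ∧
    ∀ x ∈ S, projMap A b c δ x ∈
      (convexHull ℝ (projMap A b c δ '' (S : Set (Fin d → ℝ)))).extremePoints ℝ

/-- Homogeneous coordinates `(x, 1)` of a point `x ∈ ℝ^d`. -/
def homog {d : ℕ} (x : Fin d → ℝ) : Fin (d + 1) → ℝ :=
  Fin.snoc (α := fun _ => ℝ) x 1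

/-- The points `x 0, …, x (n-1)` of `ℝ^d` (in this order) are of Lawrence type: for some
`(d+1) × n` matrix `a` of signs, the orientation of every `(d+1)`-tuple `c 0 < … < c d` of
them is the product `∏ i, a i (c i)`. -/
def IsLawrence {d n : ℕ} (x : Fin n → Fin d → ℝ) : Prop :=
  ∃ a : Fin (d + 1) → Fin n → ℝ, (∀ i j, a i j = 1 ∨ a i j = -1) ∧
    ∀ c : Fin (d + 1) → Fin n, StrictMono c →
      0 < (∏ i, a i (c i)) * (Matrix.of fun i => homog (x (c i))).det

/-! ## The game on sign boards -/

/-- The flipping game on a sign board `x` (columns `ℕ`, rows counted from the bottom). `P` is the row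
of the unflipped path, `Q` a lower bound for the rows of the flipped paths, `F` the row of the path
flipped just now; `N` steps remain and all rows must stay nonnegative. -/
def Safe : ℕ → (ℕ → ℤ → Bool) → ℤ → ℤ → ℤ → Prop
  | 0, _, _, Q, F => 0 ≤ Q ∧ 0 ≤ F
  | N + 1, x, P, Q, F => ∃ y : Bool,
      Safe N (fun j => x (j + 1)) (if x 0 P = y then P else P - 1)
        (min (if x 0 Q = y then Q else Q - 1) (if x 0 F = !y then F else F - 1))
        (if x 0 P = y then P - 1 else P)

section steps
variable {N : ℕ} {x : ℕ → ℤ → Bool} {P Q F : ℤ}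

theorem safe_eq_stay (hF : Q + 1 ≤ F) (hx : x 0 P = x 0 Q)
    (h : Safe N (fun j => x (j + 1)) P Q (P - 1)) : Safe (N + 1) x P Q F := by
  refine ⟨x 0 P, ?_⟩
  have h1 : min (if x 0 Q = x 0 P then Q else Q - 1)
      (if x 0 F = !(x 0 P) then F else F - 1) = Q := by
    rw [if_pos hx.symm]
    split_ifs <;> omega
  rw [h1]
  simpa using h

theorem safe_eq_move (hF : Q + 1 ≤ F) (hx : x 0 P = x 0 Q)
    (h : Safe N (fun j => x (j + 1)) (P - 1) (Q - 1) P) : Safe (N + 1) x P Q F := by
  refine ⟨!(x 0 P), ?_⟩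
  have h1 : min (if x 0 Q = !(x 0 P) then Q else Q - 1)
      (if x 0 F = !(!(x 0 P)) then F else F - 1) = Q - 1 := by
    rw [← hx]
    simp only [Bool.not_not]
    rw [if_neg (by simp)]
    split_ifs <;> omega
  rw [h1]
  simpa using h

theorem safe_ne_move (hF : Q + 1 ≤ F) (hx : x 0 P ≠ x 0 Q)
    (h : Safe N (fun j => x (j + 1)) (P - 1) Q P) : Safe (N + 1) x P Q F := by
  refine ⟨!(x 0 P), ?_⟩
  have hQ : x 0 Q = !(x 0 P) := by
    cases h1 : x 0 P <;> cases h2 : x 0 Q <;> simp_all
  have h1 : min (if x 0 Q = !(x 0 P) then Q else Q - 1)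
      (if x 0 F = !(!(x 0 P)) then F else F - 1) = Q := by
    rw [if_pos hQ]
    split_ifs <;> omega
  rw [h1]
  simpa using h

theorem safe_ne_stay (hF : Q + 1 ≤ F) (hx : x 0 P ≠ x 0 Q)
    (h : Safe N (fun j => x (j + 1)) P (Q - 1) (P - 1)) : Safe (N + 1) x P Q F := by
  refine ⟨x 0 P, ?_⟩
  have h1 : min (if x 0 Q = x 0 P then Q else Q - 1)
      (if x 0 F = !(x 0 P) then F else F - 1) = Q - 1 := by
    rw [if_neg (fun h => hx h.symm)]
    split_ifs <;> omega
  rw [h1]
  simpa using h

theorem safe_same_stay (h : Safe N (fun j => x (j + 1)) P (Q - 1) (P - 1)) :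
    Safe (N + 1) x P Q Q := by
  refine ⟨x 0 P, ?_⟩
  have h1 : min (if x 0 Q = x 0 P then Q else Q - 1)
      (if x 0 Q = !(x 0 P) then Q else Q - 1) = Q - 1 := by
    cases h1 : x 0 P <;> cases h2 : x 0 Q <;> simp
  rw [h1]
  simpa using h

theorem safe_diagE_stay (hx : x 0 P = x 0 (P - 1))
    (h : Safe N (fun j => x (j + 1)) P (P - 2) (P - 1)) : Safe (N + 1) x P P (P - 1) := by
  refine ⟨x 0 P, ?_⟩
  have h1 : min (if x 0 P = x 0 P then P else P - 1)
      (if x 0 (P - 1) = !(x 0 P) then P - 1 else P - 1 - 1) = P - 2 := by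
    rw [← hx, if_pos rfl, if_neg (by simp)]
    omega
  rw [h1]
  simpa using h

theorem safe_diagE_move (hx : x 0 P = x 0 (P - 1))
    (h : Safe N (fun j => x (j + 1)) (P - 1) (P - 1) P) : Safe (N + 1) x P P (P - 1) := by
  refine ⟨!(x 0 P), ?_⟩
  have h1 : min (if x 0 P = !(x 0 P) then P else P - 1)
      (if x 0 (P - 1) = !(!(x 0 P)) then P - 1 else P - 1 - 1) = P - 1 := by
    rw [← hx, if_neg (by simp), if_pos (by simp)]
    omega
  rw [h1]
  simpa using h

theorem safe_diagD_stay (hx : x 0 P ≠ x 0 (P - 1))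
    (h : Safe N (fun j => x (j + 1)) P (P - 1) (P - 1)) : Safe (N + 1) x P P (P - 1) := by
  refine ⟨x 0 P, ?_⟩
  have hQ : x 0 (P - 1) = !(x 0 P) := by
    cases h1 : x 0 P <;> cases h2 : x 0 (P - 1) <;> simp_all
  have h1 : min (if x 0 P = x 0 P then P else P - 1)
      (if x 0 (P - 1) = !(x 0 P) then P - 1 else P - 1 - 1) = P - 1 := by
    rw [if_pos rfl, if_pos hQ]
    omega
  rw [h1]
  simpa using h

end steps

/-- invariant at `N = 5k`, first kind -/
def A0 (k : ℤ) (N : ℕ) (x : ℕ → ℤ → Bool) : Prop :=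
  ∀ P Q : ℤ, 0 ≤ Q → Q ≤ P → 10 * k ≤ 3 * Q + 2 * P →
    Safe N x P Q (P + 1) ∧ (¬ (P = 2 * k ∧ Q = 2 * k) → Safe N x P Q (P - 1))

/-- invariant at `N = 5k`, second kind -/
def B0 (k : ℤ) (N : ℕ) (x : ℕ → ℤ → Bool) : Prop :=
  ∀ P Q : ℤ, 0 ≤ Q → Q ≤ P →
    ((10 * k ≤ 3 * Q + 2 * P ∧ ¬ (P = 2 * k ∧ Q = 2 * k)) ∨ (P = 2 * k + 1 ∧ Q = 2 * k - 1)) →
    Safe N x P Q (P + 1) ∧ Safe N x P Q (P - 1)

/-- invariant at `N = 5k + 1` -/
def C1 (k : ℤ) (N : ℕ) (x : ℕ → ℤ → Bool) : Prop :=
  ∀ P Q : ℤ, 0 ≤ Q → Q ≤ P → 10 * k + 2 ≤ 3 * Q + 2 * P →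
    Safe N x P Q (P + 1) ∧ (¬ (P = 2 * k + 1 ∧ Q = 2 * k) → Safe N x P Q (P - 1))

/-- invariant at `N = 5k + 2` -/
def C2 (k : ℤ) (N : ℕ) (x : ℕ → ℤ → Bool) : Prop :=
  ∀ P Q : ℤ, 0 ≤ Q → Q ≤ P → 10 * k + 4 ≤ 3 * Q + 2 * P →
    Safe N x P Q (P + 1) ∧ (¬ (P = 2 * k + 1 ∧ Q = 2 * k + 1) → Safe N x P Q (P - 1))

/-- invariant at `N = 5k + 3` -/
def C3 (k : ℤ) (N : ℕ) (x : ℕ → ℤ → Bool) : Prop :=
  ∀ P Q : ℤ, 0 ≤ Q → Q ≤ P → 10 * k + 6 ≤ 3 * Q + 2 * P →
    Safe N x P Q (P + 1) ∧ Safe N x P Q (P - 1)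

/-- invariant at `N = 5k + 4`, first kind -/
def A4 (k : ℤ) (N : ℕ) (x : ℕ → ℤ → Bool) : Prop :=
  ∀ P Q : ℤ, 0 ≤ Q → Q ≤ P → 10 * k + 8 ≤ 3 * Q + 2 * P →
    Safe N x P Q (P + 1) ∧ Safe N x P Q (P - 1)

/-- invariant at `N = 5k + 4`, second kind -/
def B4 (k : ℤ) (N : ℕ) (x : ℕ → ℤ → Bool) : Prop :=
  ∀ P Q : ℤ, 0 ≤ Q → Q ≤ P →
    ((10 * k + 8 ≤ 3 * Q + 2 * P ∨ (P = 2 * k + 2 ∧ Q = 2 * k + 1)) → Safe N x P Q (P + 1)) ∧
    (10 * k + 8 ≤ 3 * Q + 2 * P → ¬ (P = 2 * k + 2 ∧ Q = 2 * k + 2) → Safe N x P Q (P - 1))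

theorem step01 {k : ℤ} (hk : 0 ≤ k) {N : ℕ} {x : ℕ → ℤ → Bool}
    (h : A0 k N (fun j => x (j + 1)) ∨ (1 ≤ k ∧ B0 k N (fun j => x (j + 1)))) :
    C1 k (N + 1) x := by
  intro P Q hQ hPQ hthr
  rcases h with h | ⟨hk1, h⟩
  · have M : ∀ P Q : ℤ, 0 ≤ Q → Q ≤ P → 10 * k ≤ 3 * Q + 2 * P →
        Safe N (fun j => x (j + 1)) P Q (P + 1) := fun P Q h1 h2 h3 => (h P Q h1 h2 h3).1
    have S : ∀ P Q : ℤ, 0 ≤ Q → Q ≤ P → 10 * k ≤ 3 * Q + 2 * P → ¬ (P = 2 * k ∧ Q = 2 * k) →
        Safe N (fun j => x (j + 1)) P Q (P - 1) := fun P Q h1 h2 h3 => (h P Q h1 h2 h3).2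
    constructor
    · by_cases hx : x 0 P = x 0 Q
      · exact safe_eq_stay (by omega) hx (S P Q hQ hPQ (by omega) (by omega))
      · have hne : P ≠ Q := fun e => hx (by rw [e])
        have := M (P - 1) Q hQ (by omega) (by omega)
        rw [sub_add_cancel] at this
        exact safe_ne_move (by omega) hx this
    · intro hexc
      rcases lt_trichotomy (P - Q) 1 with h1 | h1 | h1
      · have hPQ' : P = Q := by omega
        subst hPQ'
        by_cases hx : x 0 P = x 0 (P - 1)
        · have := M (P - 1) (P - 1) (by omega) le_rfl (by omega)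
          rw [sub_add_cancel] at this
          exact safe_diagE_move hx this
        · exact safe_diagD_stay hx (S P (P - 1) (by omega) (by omega) (by omega) (by omega))
      · have hQ' : Q = P - 1 := by omega
        subst hQ'
        exact safe_same_stay (S P (P - 1 - 1) (by omega) (by omega) (by omega) (by omega))
      · by_cases hx : x 0 P = x 0 Q
        · exact safe_eq_stay (by omega) hx (S P Q hQ hPQ (by omega) (by omega))
        · have := M (P - 1) Q hQ (by omega) (by omega)
          rw [sub_add_cancel] at this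
          exact safe_ne_move (by omega) hx this
  · have M : ∀ P Q : ℤ, 0 ≤ Q → Q ≤ P → ((10 * k ≤ 3 * Q + 2 * P ∧ ¬ (P = 2 * k ∧ Q = 2 * k)) ∨
        (P = 2 * k + 1 ∧ Q = 2 * k - 1)) →
        Safe N (fun j => x (j + 1)) P Q (P + 1) := fun P Q h1 h2 h3 => (h P Q h1 h2 h3).1
    have S : ∀ P Q : ℤ, 0 ≤ Q → Q ≤ P → ((10 * k ≤ 3 * Q + 2 * P ∧ ¬ (P = 2 * k ∧ Q = 2 * k)) ∨
        (P = 2 * k + 1 ∧ Q = 2 * k - 1)) →
        Safe N (fun j => x (j + 1)) P Q (P - 1) := fun P Q h1 h2 h3 => (h P Q h1 h2 h3).2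
    constructor
    · by_cases hx : x 0 P = x 0 Q
      · exact safe_eq_stay (by omega) hx (S P Q hQ hPQ (by omega))
      · have hne : P ≠ Q := fun e => hx (by rw [e])
        by_cases hs : P - 1 = 2 * k ∧ Q = 2 * k
        · exact safe_ne_stay (by omega) hx (S P (Q - 1) (by omega) (by omega) (by omega))
        · have := M (P - 1) Q hQ (by omega) (by omega)
          rw [sub_add_cancel] at this
          exact safe_ne_move (by omega) hx this
    · intro hexc
      rcases lt_trichotomy (P - Q) 1 with h1 | h1 | h1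
      · have hPQ' : P = Q := by omega
        subst hPQ'
        by_cases hx : x 0 P = x 0 (P - 1)
        · exact safe_diagE_stay hx (S P (P - 2) (by omega) (by omega) (by omega))
        · exact safe_diagD_stay hx (S P (P - 1) (by omega) (by omega) (by omega))
      · have hQ' : Q = P - 1 := by omega
        subst hQ'
        exact safe_same_stay (S P (P - 1 - 1) (by omega) (by omega) (by omega))
      · by_cases hx : x 0 P = x 0 Q
        · exact safe_eq_stay (by omega) hx (S P Q hQ hPQ (by omega))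
        · have := M (P - 1) Q hQ (by omega) (by omega)
          rw [sub_add_cancel] at this
          exact safe_ne_move (by omega) hx this

theorem step12 {k : ℤ} (hk : 0 ≤ k) {N : ℕ} {x : ℕ → ℤ → Bool}
    (h : C1 k N (fun j => x (j + 1))) : C2 k (N + 1) x := by
  intro P Q hQ hPQ hthr
  have M : ∀ P Q : ℤ, 0 ≤ Q → Q ≤ P → 10 * k + 2 ≤ 3 * Q + 2 * P →
      Safe N (fun j => x (j + 1)) P Q (P + 1) := fun P Q h1 h2 h3 => (h P Q h1 h2 h3).1
  have S : ∀ P Q : ℤ, 0 ≤ Q → Q ≤ P → 10 * k + 2 ≤ 3 * Q + 2 * P →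
      ¬ (P = 2 * k + 1 ∧ Q = 2 * k) →
      Safe N (fun j => x (j + 1)) P Q (P - 1) := fun P Q h1 h2 h3 => (h P Q h1 h2 h3).2
  constructor
  · by_cases hx : x 0 P = x 0 Q
    · exact safe_eq_stay (by omega) hx (S P Q hQ hPQ (by omega) (by omega))
    · have hne : P ≠ Q := fun e => hx (by rw [e])
      have := M (P - 1) Q hQ (by omega) (by omega)
      rw [sub_add_cancel] at this
      exact safe_ne_move (by omega) hx this
  · intro hexc
    rcases lt_trichotomy (P - Q) 1 with h1 | h1 | h1
    · have hPQ' : P = Q := by omega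
      subst hPQ'
      by_cases hx : x 0 P = x 0 (P - 1)
      · have := M (P - 1) (P - 1) (by omega) le_rfl (by omega)
        rw [sub_add_cancel] at this
        exact safe_diagE_move hx this
      · exact safe_diagD_stay hx (S P (P - 1) (by omega) (by omega) (by omega) (by omega))
    · have hQ' : Q = P - 1 := by omega
      subst hQ'
      exact safe_same_stay (S P (P - 1 - 1) (by omega) (by omega) (by omega) (by omega))
    · by_cases hx : x 0 P = x 0 Q
      · exact safe_eq_stay (by omega) hx (S P Q hQ hPQ (by omega) (by omega))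
      · have := M (P - 1) Q hQ (by omega) (by omega)
        rw [sub_add_cancel] at this
        exact safe_ne_move (by omega) hx this

theorem step23 {k : ℤ} (hk : 0 ≤ k) {N : ℕ} {x : ℕ → ℤ → Bool}
    (h : C2 k N (fun j => x (j + 1))) : C3 k (N + 1) x := by
  intro P Q hQ hPQ hthr
  have M : ∀ P Q : ℤ, 0 ≤ Q → Q ≤ P → 10 * k + 4 ≤ 3 * Q + 2 * P →
      Safe N (fun j => x (j + 1)) P Q (P + 1) := fun P Q h1 h2 h3 => (h P Q h1 h2 h3).1
  have S : ∀ P Q : ℤ, 0 ≤ Q → Q ≤ P → 10 * k + 4 ≤ 3 * Q + 2 * P →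
      ¬ (P = 2 * k + 1 ∧ Q = 2 * k + 1) →
      Safe N (fun j => x (j + 1)) P Q (P - 1) := fun P Q h1 h2 h3 => (h P Q h1 h2 h3).2
  constructor
  · by_cases hx : x 0 P = x 0 Q
    · exact safe_eq_stay (by omega) hx (S P Q hQ hPQ (by omega) (by omega))
    · have hne : P ≠ Q := fun e => hx (by rw [e])
      have := M (P - 1) Q hQ (by omega) (by omega)
      rw [sub_add_cancel] at this
      exact safe_ne_move (by omega) hx this
  · rcases lt_trichotomy (P - Q) 1 with h1 | h1 | h1
    · have hPQ' : P = Q := by omega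
      subst hPQ'
      by_cases hx : x 0 P = x 0 (P - 1)
      · have := M (P - 1) (P - 1) (by omega) le_rfl (by omega)
        rw [sub_add_cancel] at this
        exact safe_diagE_move hx this
      · exact safe_diagD_stay hx (S P (P - 1) (by omega) (by omega) (by omega) (by omega))
    · have hQ' : Q = P - 1 := by omega
      subst hQ'
      exact safe_same_stay (S P (P - 1 - 1) (by omega) (by omega) (by omega) (by omega))
    · by_cases hx : x 0 P = x 0 Q
      · exact safe_eq_stay (by omega) hx (S P Q hQ hPQ (by omega) (by omega))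
      · have := M (P - 1) Q hQ (by omega) (by omega)
        rw [sub_add_cancel] at this
        exact safe_ne_move (by omega) hx this

theorem step34 {k : ℤ} (hk : 0 ≤ k) {N : ℕ} {x : ℕ → ℤ → Bool}
    (h : C3 k N (fun j => x (j + 1))) : A4 k (N + 1) x ∨ B4 k (N + 1) x := by
  have M : ∀ P Q : ℤ, 0 ≤ Q → Q ≤ P → 10 * k + 6 ≤ 3 * Q + 2 * P →
      Safe N (fun j => x (j + 1)) P Q (P + 1) := fun P Q h1 h2 h3 => (h P Q h1 h2 h3).1
  have S : ∀ P Q : ℤ, 0 ≤ Q → Q ≤ P → 10 * k + 6 ≤ 3 * Q + 2 * P →
      Safe N (fun j => x (j + 1)) P Q (P - 1) := fun P Q h1 h2 h3 => (h P Q h1 h2 h3).2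
  by_cases hE : x 0 (2 * k + 2) = x 0 (2 * k + 1)
  · right
    intro P Q hQ hPQ
    constructor
    · intro hthr
      by_cases hx : x 0 P = x 0 Q
      · exact safe_eq_stay (by omega) hx (S P Q hQ hPQ (by omega))
      · have hne : P ≠ Q := fun e => hx (by rw [e])
        have hne2 : ¬ (P = 2 * k + 2 ∧ Q = 2 * k + 1) := by
          rintro ⟨h1, h2⟩
          exact hx (by rw [h1, h2]; exact hE)
        have := M (P - 1) Q hQ (by omega) (by omega)
        rw [sub_add_cancel] at this
        exact safe_ne_move (by omega) hx this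
    · intro hthr hexc
      rcases lt_trichotomy (P - Q) 1 with h1 | h1 | h1
      · have hPQ' : P = Q := by omega
        subst hPQ'
        by_cases hx : x 0 P = x 0 (P - 1)
        · have := M (P - 1) (P - 1) (by omega) le_rfl (by omega)
          rw [sub_add_cancel] at this
          exact safe_diagE_move hx this
        · exact safe_diagD_stay hx (S P (P - 1) (by omega) (by omega) (by omega))
      · have hQ' : Q = P - 1 := by omega
        subst hQ'
        exact safe_same_stay (S P (P - 1 - 1) (by omega) (by omega) (by omega))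
      · by_cases hx : x 0 P = x 0 Q
        · exact safe_eq_stay (by omega) hx (S P Q hQ hPQ (by omega))
        · have := M (P - 1) Q hQ (by omega) (by omega)
          rw [sub_add_cancel] at this
          exact safe_ne_move (by omega) hx this
  · left
    intro P Q hQ hPQ hthr
    constructor
    · by_cases hx : x 0 P = x 0 Q
      · exact safe_eq_stay (by omega) hx (S P Q hQ hPQ (by omega))
      · have hne : P ≠ Q := fun e => hx (by rw [e])
        have := M (P - 1) Q hQ (by omega) (by omega)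
        rw [sub_add_cancel] at this
        exact safe_ne_move (by omega) hx this
    · rcases lt_trichotomy (P - Q) 1 with h1 | h1 | h1
      · have hPQ' : P = Q := by omega
        subst hPQ'
        by_cases hx : x 0 P = x 0 (P - 1)
        · have hP2 : P ≠ 2 * k + 2 := by
            intro e
            apply hE
            rw [← e, hx]
            congr 1
            omega
          have := M (P - 1) (P - 1) (by omega) le_rfl (by omega)
          rw [sub_add_cancel] at this
          exact safe_diagE_move hx this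
        · exact safe_diagD_stay hx (S P (P - 1) (by omega) (by omega) (by omega))
      · have hQ' : Q = P - 1 := by omega
        subst hQ'
        exact safe_same_stay (S P (P - 1 - 1) (by omega) (by omega) (by omega))
      · by_cases hx : x 0 P = x 0 Q
        · exact safe_eq_stay (by omega) hx (S P Q hQ hPQ (by omega))
        · have := M (P - 1) Q hQ (by omega) (by omega)
          rw [sub_add_cancel] at this
          exact safe_ne_move (by omega) hx this

theorem step45 {k : ℤ} (hk : 0 ≤ k) {N : ℕ} {x : ℕ → ℤ → Bool}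
    (h : A4 k N (fun j => x (j + 1)) ∨ B4 k N (fun j => x (j + 1))) :
    A0 (k + 1) (N + 1) x ∨ (1 ≤ k + 1 ∧ B0 (k + 1) (N + 1) x) := by
  rcases h with h | h
  · left
    intro P Q hQ hPQ hthr
    have M : ∀ P Q : ℤ, 0 ≤ Q → Q ≤ P → 10 * k + 8 ≤ 3 * Q + 2 * P →
        Safe N (fun j => x (j + 1)) P Q (P + 1) := fun P Q h1 h2 h3 => (h P Q h1 h2 h3).1
    have S : ∀ P Q : ℤ, 0 ≤ Q → Q ≤ P → 10 * k + 8 ≤ 3 * Q + 2 * P →
        Safe N (fun j => x (j + 1)) P Q (P - 1) := fun P Q h1 h2 h3 => (h P Q h1 h2 h3).2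
    constructor
    · by_cases hx : x 0 P = x 0 Q
      · exact safe_eq_stay (by omega) hx (S P Q hQ hPQ (by omega))
      · have hne : P ≠ Q := fun e => hx (by rw [e])
        have := M (P - 1) Q hQ (by omega) (by omega)
        rw [sub_add_cancel] at this
        exact safe_ne_move (by omega) hx this
    · intro hexc
      rcases lt_trichotomy (P - Q) 1 with h1 | h1 | h1
      · have hPQ' : P = Q := by omega
        subst hPQ'
        by_cases hx : x 0 P = x 0 (P - 1)
        · have := M (P - 1) (P - 1) (by omega) le_rfl (by omega)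
          rw [sub_add_cancel] at this
          exact safe_diagE_move hx this
        · exact safe_diagD_stay hx (S P (P - 1) (by omega) (by omega) (by omega))
      · have hQ' : Q = P - 1 := by omega
        subst hQ'
        exact safe_same_stay (S P (P - 1 - 1) (by omega) (by omega) (by omega))
      · by_cases hx : x 0 P = x 0 Q
        · exact safe_eq_stay (by omega) hx (S P Q hQ hPQ (by omega))
        · have := M (P - 1) Q hQ (by omega) (by omega)
          rw [sub_add_cancel] at this
          exact safe_ne_move (by omega) hx this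
  · right
    refine ⟨by omega, ?_⟩
    intro P Q hQ hPQ hthr
    have M : ∀ P Q : ℤ, 0 ≤ Q → Q ≤ P →
        (10 * k + 8 ≤ 3 * Q + 2 * P ∨ (P = 2 * k + 2 ∧ Q = 2 * k + 1)) →
        Safe N (fun j => x (j + 1)) P Q (P + 1) := fun P Q h1 h2 => (h P Q h1 h2).1
    have S : ∀ P Q : ℤ, 0 ≤ Q → Q ≤ P → 10 * k + 8 ≤ 3 * Q + 2 * P →
        ¬ (P = 2 * k + 2 ∧ Q = 2 * k + 2) →
        Safe N (fun j => x (j + 1)) P Q (P - 1) := fun P Q h1 h2 => (h P Q h1 h2).2
    constructor
    · by_cases hx : x 0 P = x 0 Q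
      · exact safe_eq_stay (by omega) hx (S P Q hQ hPQ (by omega) (by omega))
      · have hne : P ≠ Q := fun e => hx (by rw [e])
        have := M (P - 1) Q hQ (by omega) (by omega)
        rw [sub_add_cancel] at this
        exact safe_ne_move (by omega) hx this
    · rcases lt_trichotomy (P - Q) 1 with h1 | h1 | h1
      · have hPQ' : P = Q := by omega
        subst hPQ'
        by_cases hx : x 0 P = x 0 (P - 1)
        · have := M (P - 1) (P - 1) (by omega) le_rfl (by omega)
          rw [sub_add_cancel] at this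
          exact safe_diagE_move hx this
        · exact safe_diagD_stay hx (S P (P - 1) (by omega) (by omega) (by omega) (by omega))
      · have hQ' : Q = P - 1 := by omega
        subst hQ'
        exact safe_same_stay (S P (P - 1 - 1) (by omega) (by omega) (by omega) (by omega))
      · by_cases hx : x 0 P = x 0 Q
        · exact safe_eq_stay (by omega) hx (S P Q hQ hPQ (by omega) (by omega))
        · have := M (P - 1) Q hQ (by omega) (by omega)
          rw [sub_add_cancel] at this
          exact safe_ne_move (by omega) hx this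

theorem A0_zero (x : ℕ → ℤ → Bool) : A0 0 0 x := by
  intro P Q hQ hPQ hthr
  refine ⟨⟨hQ, by omega⟩, fun h => ⟨hQ, by omega⟩⟩

theorem inv0 (k : ℕ) : ∀ x : ℕ → ℤ → Bool,
    A0 k (5 * k) x ∨ (1 ≤ (k : ℤ) ∧ B0 k (5 * k) x) := by
  induction k with
  | zero => intro x; left; exact A0_zero x
  | succ k ih =>
    intro x
    have e : 5 * (k + 1) = 5 * k + 1 + 1 + 1 + 1 + 1 := by ring
    have hk : (0 : ℤ) ≤ k := by positivity
    rw [e]
    push_cast
    exact step45 hk (step34 hk (step23 hk (step12 hk (step01 hk (ih _)))))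

/-- After `M` steps remain, the state `(R, R - 1)` reached just after a stay is safe. -/
theorem safe_start (M : ℕ) (x : ℕ → ℤ → Bool) (R : ℤ) (hR : 1 ≤ R)
    (h : 2 * ((M : ℤ) + 2) ≤ 5 * R) : Safe M x R (R - 1) (R - 1) := by
  obtain ⟨k, i, hi, hM⟩ : ∃ k i : ℕ, i < 5 ∧ M = 5 * k + i :=
    ⟨M / 5, M % 5, Nat.mod_lt _ (by norm_num), (Nat.div_add_mod M 5).symm⟩
  have hk : (0 : ℤ) ≤ k := by positivity
  have c1 := fun x => step01 (x := x) hk (inv0 k (fun j => x (j + 1)))
  have c2 := fun x => step12 (x := x) hk (c1 _)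
  have c3 := fun x => step23 (x := x) hk (c2 _)
  have c4 := fun x => step34 (x := x) hk (c3 _)
  interval_cases i
  · subst hM
    rcases inv0 k x with h0 | ⟨h1, h0⟩
    · exact (h0 R (R - 1) (by omega) (by omega) (by push_cast at h; omega)).2 (by omega)
    · exact (h0 R (R - 1) (by omega) (by omega) (by push_cast at h; omega)).2
  · subst hM
    exact (c1 x R (R - 1) (by omega) (by omega) (by push_cast at h; omega)).2
      (by push_cast at h; omega)
  · subst hM
    exact (c2 x R (R - 1) (by omega) (by omega) (by push_cast at h; omega)).2 (by omega)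
  · subst hM
    exact (c3 x R (R - 1) (by omega) (by omega) (by push_cast at h; omega)).2
  · subst hM
    rcases c4 x with h0 | h0
    · exact (h0 R (R - 1) (by omega) (by omega) (by push_cast at h; omega)).2
    · exact (h0 R (R - 1) (by omega) (by omega)).2 (by push_cast at h; omega) (by omega)

theorem safe_init (n : ℕ) (hn : 1 ≤ n) (x : ℕ → ℤ → Bool) (R : ℤ) (h : 2 * (n : ℤ) ≤ 5 * R) :
    Safe (n - 1) x R R R := by
  rcases Nat.lt_or_ge n 2 with h1 | h1
  · have : n = 1 := by omega
    subst this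
    exact ⟨by omega, by omega⟩
  · obtain ⟨M, rfl⟩ : ∃ M, n = M + 2 := ⟨n - 2, by omega⟩
    have e : M + 2 - 1 = M + 1 := by omega
    rw [e]
    exact safe_same_stay (safe_start M _ R (by push_cast at h; omega) (by push_cast at h; omega))

/-! ## Greedy paths and sign vectors -/

/-- The greedy path on the board `x` steered by `y`, starting in row `ρ`. -/
def path (x : ℕ → ℤ → Bool) (y : ℕ → Bool) (ρ : ℤ) : ℕ → ℤ
  | 0 => ρ
  | j + 1 => if x j (path x y ρ j) = y j then path x y ρ j else path x y ρ j - 1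

theorem path_succ' (x : ℕ → ℤ → Bool) (y : ℕ → Bool) (ρ : ℤ) (N : ℕ) :
    path x y ρ (N + 1) =
      path (fun j => x (j + 1)) (fun j => y (j + 1)) (if x 0 ρ = y 0 then ρ else ρ - 1) N := by
  induction N with
  | zero => rfl
  | succ N ih =>
    rw [path, ih]
    rfl

theorem path_mono (x : ℕ → ℤ → Bool) (y : ℕ → Bool) {ρ ρ' : ℤ} (h : ρ ≤ ρ') (N : ℕ) :
    path x y ρ N ≤ path x y ρ' N := by
  induction N with
  | zero => exact h
  | succ N ih =>
    simp only [path]
    rcases ih.lt_or_eq with h1 | h1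
    · split_ifs <;> omega
    · rw [h1]

theorem path_antitone (x : ℕ → ℤ → Bool) (y : ℕ → Bool) (ρ : ℤ) : Antitone (path x y ρ) := by
  apply antitone_nat_of_succ_le
  intro j
  simp only [path]
  split_ifs <;> omega

/-- effect on the steering of flipping the sign in column `k` -/
def flipY (k : ℕ) (y : ℕ → Bool) : ℕ → Bool := fun j => if j = k ∨ j + 1 = k then !(y j) else y j

/-- prepend a value -/
def consY (b : Bool) (y : ℕ → Bool) : ℕ → Bool
  | 0 => b
  | j + 1 => y j

theorem exists_steering (N : ℕ) : ∀ (x : ℕ → ℤ → Bool) (P Q F : ℤ), Q ≤ P → Safe N x P Q F →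
    ∃ y : ℕ → Bool, 0 ≤ path x y Q N ∧ 0 ≤ path x (flipY 0 y) F N ∧
      ∀ k < N, 0 ≤ path x (flipY (k + 1) y) P N := by
  induction N with
  | zero =>
    intro x P Q F _ h
    exact ⟨fun _ => true, h.1, h.2, fun k hk => absurd hk (Nat.not_lt_zero k)⟩
  | succ N ih =>
    intro x P Q F hQP h
    obtain ⟨b, hb⟩ := h
    obtain ⟨y, h1, h2, h3⟩ := ih _ _ _ _ (by
      refine le_trans (min_le_left _ _) ?_
      rcases hQP.lt_or_eq with h | h
      · split_ifs <;> omega
      · rw [h]) hb
    refine ⟨consY b y, ?_, ?_, ?_⟩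
    · rw [path_succ']
      exact le_trans h1 (path_mono _ _ (min_le_left _ _) N)
    · rw [path_succ']
      have e : (fun j => flipY 0 (consY b y) (j + 1)) = y := by
        funext j
        simp [flipY, consY]
      have e0 : flipY 0 (consY b y) 0 = !b := by simp [flipY, consY]
      rw [e, e0]
      exact le_trans h1 (path_mono _ _ (min_le_right _ _) N)
    · intro k hk
      rw [path_succ']
      cases k with
      | zero =>
        have e : (fun j => flipY (0 + 1) (consY b y) (j + 1)) = flipY 0 y := by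
          funext j
          simp [flipY, consY]
        have e0 : flipY (0 + 1) (consY b y) 0 = !b := by simp [flipY, consY]
        rw [e, e0]
        have e1 : (if x 0 P = !b then P else P - 1) = (if x 0 P = b then P - 1 else P) := by
          cases x 0 P <;> cases b <;> simp
        rw [e1]
        exact h2
      | succ m =>
        have e : (fun j => flipY (m + 1 + 1) (consY b y) (j + 1)) = flipY (m + 1) y := by
          funext j
          simp [flipY, consY]
        have e0 : flipY (m + 1 + 1) (consY b y) 0 = b := by simp [flipY, consY]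
        rw [e, e0]
        exact h3 m (by omega)

/-- steering given by a sign vector: `true` when neighbouring signs agree -/
def yOf (τ : ℕ → Bool) : ℕ → Bool := fun j => τ j == τ (j + 1)

/-- a sign vector with given steering -/
def sig (y : ℕ → Bool) : ℕ → Bool
  | 0 => true
  | j + 1 => sig y j == y j

theorem yOf_sig (y : ℕ → Bool) : yOf (sig y) = y := by
  funext j
  simp only [yOf, sig]
  cases sig y j <;> cases y j <;> rfl

/-- flip one sign -/
def flipS (k : ℕ) (τ : ℕ → Bool) : ℕ → Bool := fun j => if j = k then !(τ j) else τ j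

theorem yOf_flipS (k : ℕ) (τ : ℕ → Bool) : yOf (flipS k τ) = flipY k (yOf τ) := by
  funext j
  simp only [yOf, flipS, flipY]
  by_cases h1 : j = k
  · have h2 : ¬ (j + 1 = k) := by omega
    rw [if_pos h1, if_neg h2, if_pos (Or.inl h1)]
    cases τ j <;> cases τ (j + 1) <;> rfl
  · by_cases h2 : j + 1 = k
    · rw [if_neg h1, if_pos h2, if_pos (Or.inr h2)]
      cases τ j <;> cases τ (j + 1) <;> rfl
    · rw [if_neg h1, if_neg h2, if_neg (by tauto)]

/-- Combinatorial core: on every sign board with `R + 1` rows and `n ≤ 5 R / 2` columns some sign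
vector and all its single flips have greedy paths that stay on the board. -/
theorem exists_sigma (x : ℕ → ℤ → Bool) (R : ℤ) (n : ℕ) (hn : 1 ≤ n) (h : 2 * (n : ℤ) ≤ 5 * R) :
    ∃ σ : ℕ → Bool, 0 ≤ path x (yOf σ) R (n - 1) ∧
      ∀ k < n, 0 ≤ path x (yOf (flipS k σ)) R (n - 1) := by
  obtain ⟨y, h1, h2, h3⟩ := exists_steering (n - 1) x R R R le_rfl (safe_init n hn x R h)
  refine ⟨sig y, by rw [yOf_sig]; exact h1, ?_⟩
  intro k hk
  rw [yOf_flipS, yOf_sig]
  cases k with
  | zero => exact h2
  | succ k => exact h3 k (by omega)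

/-! ## Signs of dependencies in a Lawrence-type configuration -/

theorem chain_sign {d n : ℕ} {v : Fin n → Fin (d + 1) → ℝ} {a : Fin (d + 1) → Fin n → ℝ}
    (hL : ∀ c : Fin (d + 1) → Fin n, StrictMono c →
      0 < (∏ i, a i (c i)) * (Matrix.of fun i => v (c i)).det)
    (C : Fin (d + 2) → Fin n) (hC : StrictMono C) (α : Fin (d + 2) → ℝ) (hα : ∀ l, α l ≠ 0)
    (hsum : ∑ l, α l • v (C l) = 0) (i : Fin (d + 1)) :
    α i.castSucc * α i.succ * (a i (C i.castSucc) * a i (C i.succ)) < 0 := by
  set M : Fin (d + 1) → Fin (d + 1) → ℝ := fun l => v (C (i.succ.succAbove l)) with hM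
  set D : (Fin (d + 1) → ℝ) →ₗ[ℝ] ℝ :=
    (Matrix.detRowAlternating (n := Fin (d + 1)) (R := ℝ)).toMultilinearMap.toLinearMap M i with hD
  have hDz : ∀ z, D z = Matrix.det (Matrix.of (Function.update M i z)) := fun z => rfl
  have hzero : ∀ m, m ≠ i.castSucc → m ≠ i.succ → D (v (C m)) = 0 := by
    intro m h1 h2
    obtain ⟨l, hl⟩ := Fin.exists_succAbove_eq h2
    have hli : l ≠ i := by
      rintro rfl
      exact h1 (by rw [← hl, Fin.succAbove_succ_self])
    rw [hDz]
    refine Matrix.det_zero_of_row_eq hli ?_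
    ext k
    simp [Function.update_of_ne hli, hM, hl]
  have h0 : α i.castSucc * D (v (C i.castSucc)) + α i.succ * D (v (C i.succ)) = 0 := by
    have h1 : D (∑ l, α l • v (C l)) = 0 := by rw [hsum, map_zero]
    rw [map_sum] at h1
    simp only [map_smul, smul_eq_mul] at h1
    rw [Finset.sum_eq_add i.castSucc i.succ (Fin.castSucc_lt_succ).ne] at h1
    · exact h1
    · intro m _ hm
      rw [hzero m hm.1 hm.2, mul_zero]
    · intro h; exact absurd (Finset.mem_univ _) h
    · intro h; exact absurd (Finset.mem_univ _) h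
  have hU1 : Function.update M i (v (C i.castSucc)) = M := by
    have : v (C i.castSucc) = M i := by simp [hM, Fin.succAbove_succ_self]
    rw [this, Function.update_eq_self]
  have hne : ∀ l, l ≠ i → i.succ.succAbove l = i.castSucc.succAbove l := by
    intro l hl
    rcases lt_or_gt_of_ne hl with h | h
    · rw [Fin.succAbove_of_castSucc_lt _ _ (by
        rw [Fin.lt_def] at h ⊢; simp only [Fin.val_castSucc, Fin.val_succ]; omega),
        Fin.succAbove_of_castSucc_lt _ _ (by
        rw [Fin.lt_def] at h ⊢; simp only [Fin.val_castSucc]; omega)]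
    · rw [Fin.succAbove_of_le_castSucc _ _ (by
        rw [Fin.lt_def] at h; rw [Fin.le_def]; simp only [Fin.val_castSucc, Fin.val_succ]; omega),
        Fin.succAbove_of_le_castSucc _ _ (by
        rw [Fin.lt_def] at h; rw [Fin.le_def]; simp only [Fin.val_castSucc]; omega)]
  have hU2 : Function.update M i (v (C i.succ)) = fun l => v (C (i.castSucc.succAbove l)) := by
    funext l
    by_cases hl : l = i
    · subst hl
      rw [Function.update_self, Fin.succAbove_castSucc_self]
    · rw [Function.update_of_ne hl, hM]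
      simp only
      rw [hne l hl]
  have p1 := hL (fun l => C (i.succ.succAbove l)) (hC.comp (Fin.strictMono_succAbove _))
  have p2 := hL (fun l => C (i.castSucc.succAbove l)) (hC.comp (Fin.strictMono_succAbove _))
  have d1 : D (v (C i.castSucc)) = (Matrix.of fun l => v (C (i.succ.succAbove l))).det := by
    rw [hDz, hU1]
  have d2 : D (v (C i.succ)) = (Matrix.of fun l => v (C (i.castSucc.succAbove l))).det := by
    rw [hDz, hU2]
  rw [← d1, ← Finset.mul_prod_erase _ _ (Finset.mem_univ i), Fin.succAbove_succ_self] at p1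
  rw [← d2, ← Finset.mul_prod_erase _ _ (Finset.mem_univ i), Fin.succAbove_castSucc_self] at p2
  have hprod : ∏ l ∈ Finset.univ.erase i, a l (C (i.castSucc.succAbove l)) =
      ∏ l ∈ Finset.univ.erase i, a l (C (i.succ.succAbove l)) := by
    refine Finset.prod_congr rfl fun l hl => ?_
    rw [hne l (Finset.ne_of_mem_erase hl)]
  rw [hprod] at p2
  generalize (∏ l ∈ Finset.univ.erase i, a l (C (i.succ.succAbove l))) = ρ at p1 p2
  generalize D (v (C i.castSucc)) = D1 at *
  generalize D (v (C i.succ)) = D2 at *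
  have q1 := hα i.castSucc
  have q2 := hα i.succ
  generalize α i.castSucc = s at *
  generalize α i.succ = t at *
  generalize a i (C i.castSucc) = e at *
  generalize a i (C i.succ) = f at *
  have hpp : 0 < (e * f * (D1 * D2)) * (ρ * ρ) := by
    have := mul_pos p1 p2
    calc (0 : ℝ) < e * ρ * D1 * (f * ρ * D2) := this
      _ = _ := by ring
  have hρ : ρ ≠ 0 := by
    rintro rfl
    simp at p1
  have hρ2 : 0 < ρ * ρ := mul_self_pos.mpr hρ
  have hef : 0 < e * f * (D1 * D2) := (mul_pos_iff_of_pos_right hρ2).mp hpp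
  have hD2 : D2 ≠ 0 := by
    rintro rfl
    simp at p2
  have hkey : s * t * (e * f) * (e * f * (D1 * D2)) < 0 := by
    have e1 : s * D1 = -(t * D2) := by linarith
    have e2 : s * t * (e * f) * (e * f * (D1 * D2)) = -((t * D2) * (e * f)) ^ 2 := by
      calc s * t * (e * f) * (e * f * (D1 * D2)) = (s * D1) * (t * D2) * (e * f) ^ 2 := by ring
        _ = _ := by rw [e1]; ring
    rw [e2]
    have hef' : e * f ≠ 0 := by
      intro h
      rw [h] at hef
      simp at hef
    have : 0 < ((t * D2) * (e * f)) ^ 2 := by positivity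
    linarith
  by_contra hcon
  push Not at hcon
  have := mul_nonneg hcon hef.le
  linarith

/-- sign of a boolean -/
noncomputable def sgn (b : Bool) : ℝ := if b then 1 else -1

/-- extension of the sign matrix to all pairs of natural numbers -/
noncomputable def ab {d n : ℕ} (a : Fin (d + 1) → Fin n → ℝ) (i j : ℕ) : ℝ :=
  if h : i < d + 1 ∧ j < n then a ⟨i, h.1⟩ ⟨j, h.2⟩ else 1

open Classical in
/-- the sign board of the matrix -/
noncomputable def board {d n : ℕ} (a : Fin (d + 1) → Fin n → ℝ) : ℕ → ℤ → Bool :=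
  fun j P => decide (ab a ((d : ℤ) - P).toNat j = ab a ((d : ℤ) - P).toNat (j + 1))

theorem path_chain {d n : ℕ} {a : Fin (d + 1) → Fin n → ℝ}
    (ha : ∀ i j, a i j = 1 ∨ a i j = -1) (τ : ℕ → Bool)
    (C : Fin (d + 2) → Fin n) (hC : StrictMono C)
    (hrel : ∀ i : Fin (d + 1), sgn (τ (C i.castSucc)) * a i (C i.castSucc) =
      -(sgn (τ (C i.succ)) * a i (C i.succ))) :
    ∀ l : ℕ, ∀ hl : l < d + 2, path (board a) (yOf τ) d (C ⟨l, hl⟩) ≤ (d : ℤ) - l := by
  intro l
  induction l with
  | zero =>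
    intro hl
    have := path_antitone (board a) (yOf τ) d (Nat.zero_le (C ⟨0, hl⟩))
    simpa [path] using this
  | succ l ih =>
    intro hl
    have hl' : l < d + 2 := by omega
    have hl1 : l < d + 1 := by omega
    have ih' := ih hl'
    by_contra hcon
    push Not at hcon
    have hlt : (C ⟨l, hl'⟩ : ℕ) < C ⟨l + 1, hl⟩ := hC (by rw [Fin.lt_def]; exact Nat.lt_succ_self l)
    have hconst : ∀ j : ℕ, (C ⟨l, hl'⟩ : ℕ) ≤ j → j ≤ C ⟨l + 1, hl⟩ →
        path (board a) (yOf τ) d j = (d : ℤ) - l := by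
      intro j h1 h2
      have h3 := path_antitone (board a) (yOf τ) d h1
      have h4 := path_antitone (board a) (yOf τ) d h2
      push_cast at hcon
      omega
    have hprod : ∀ m : ℕ, (C ⟨l, hl'⟩ : ℕ) + m ≤ C ⟨l + 1, hl⟩ →
        sgn (τ (C ⟨l, hl'⟩ + m)) * ab a l (C ⟨l, hl'⟩ + m) =
          sgn (τ (C ⟨l, hl'⟩)) * ab a l (C ⟨l, hl'⟩) := by
      intro m
      induction m with
      | zero => intro _; rfl
      | succ m ihm =>
        intro hm
        rw [← ihm (by omega)]
        set j : ℕ := (C ⟨l, hl'⟩ : ℕ) + m with hj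
        have e1 := hconst j (by omega) (by omega)
        have e2 := hconst (j + 1) (by omega) (by omega)
        have hjn : j + 1 < n := lt_of_le_of_lt (by omega) (C ⟨l + 1, hl⟩).2
        rw [path, e1] at e2
        have e3 : board a j ((d : ℤ) - l) = yOf τ j := by
          by_contra hne
          rw [if_neg hne] at e2
          omega
        have e4 : ((d : ℤ) - ((d : ℤ) - l)).toNat = l := by omega
        simp only [board, e4, yOf] at e3
        have b1 : ab a l j = 1 ∨ ab a l j = -1 := by
          unfold ab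
          split_ifs
          · exact ha _ _
          · left; rfl
        have b2 : ab a l (j + 1) = 1 ∨ ab a l (j + 1) = -1 := by
          unfold ab
          split_ifs
          · exact ha _ _
          · left; rfl
        have e5 : (C ⟨l, hl'⟩ : ℕ) + (m + 1) = j + 1 := by omega
        rw [e5]
        rcases b1 with b1 | b1 <;> rcases b2 with b2 | b2 <;> rw [b1, b2] at e3 ⊢ <;>
          cases h1 : τ j <;> cases h2 : τ (j + 1) <;> rw [h1, h2] at e3 <;>
          simp [sgn] at e3 ⊢ <;> norm_num at e3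
    have hfin := hprod ((C ⟨l + 1, hl⟩ : ℕ) - C ⟨l, hl'⟩) (by omega)
    rw [Nat.add_sub_cancel' hlt.le] at hfin
    have hab : ∀ j : Fin n, ab a l j = a ⟨l, hl1⟩ j := by
      intro j
      unfold ab
      rw [dif_pos ⟨hl1, j.2⟩]
    rw [hab, hab] at hfin
    have hr := hrel ⟨l, hl1⟩
    have c1 : (⟨l, hl1⟩ : Fin (d + 1)).castSucc = ⟨l, hl'⟩ := rfl
    have c2 : (⟨l, hl1⟩ : Fin (d + 1)).succ = ⟨l + 1, hl⟩ := rfl
    rw [c1, c2] at hr
    have hz : sgn (τ (C ⟨l, hl'⟩)) * a ⟨l, hl1⟩ (C ⟨l, hl'⟩) = 0 := by linarith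
    have hs : sgn (τ (C ⟨l, hl'⟩)) ≠ 0 := by
      unfold sgn
      split_ifs <;> norm_num
    have ha' : a ⟨l, hl1⟩ (C ⟨l, hl'⟩) ≠ 0 := by
      rcases ha ⟨l, hl1⟩ (C ⟨l, hl'⟩) with h | h <;> rw [h] <;> norm_num
    exact mul_ne_zero hs ha' hz

theorem sgn_ne (b : Bool) : sgn b ≠ 0 := by
  unfold sgn
  split_ifs <;> norm_num

theorem sgn_sq (b : Bool) : sgn b * sgn b = 1 := by
  unfold sgn
  split_ifs <;> norm_num

/-- A sign vector whose greedy path stays on the board is realised by a linear functional. -/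
theorem exists_functional {d n : ℕ} (hdn : d + 1 ≤ n) {v : Fin n → Fin (d + 1) → ℝ}
    {a : Fin (d + 1) → Fin n → ℝ} (ha : ∀ i j, a i j = 1 ∨ a i j = -1)
    (hL : ∀ c : Fin (d + 1) → Fin n, StrictMono c →
      0 < (∏ i, a i (c i)) * (Matrix.of fun i => v (c i)).det)
    (τ : ℕ → Bool) (hτ : 0 ≤ path (board a) (yOf τ) d (n - 1)) :
    ∃ u : Fin (d + 1) → ℝ, ∀ j : Fin n, 0 < sgn (τ j) * (u ⬝ᵥ v j) := by
  classical
  by_contra hno
  set w : Fin n → Fin (d + 1) → ℝ := fun j => sgn (τ j) • v j with hw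
  have h0 : (0 : Fin (d + 1) → ℝ) ∈ convexHull ℝ (Set.range w) := by
    by_contra h0
    have hclosed : IsClosed (convexHull ℝ (Set.range w)) :=
      (Set.finite_range w).isClosed_convexHull (𝕜 := ℝ)
    obtain ⟨f, c, hf0, hf⟩ := geometric_hahn_banach_point_closed
      (convex_convexHull ℝ (Set.range w)) hclosed h0
    apply hno
    refine ⟨fun k => f (Pi.single k 1), fun j => ?_⟩
    have h1 : (fun k => f (Pi.single k 1)) ⬝ᵥ v j = f (v j) := by
      have : v j = ∑ k, v j k • (Pi.single k (1 : ℝ) : Fin (d + 1) → ℝ) := by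
        ext l
        simp [Finset.sum_apply, Pi.single_apply]
      conv_rhs => rw [this, map_sum]
      simp only [map_smul, smul_eq_mul, dotProduct]
      exact Finset.sum_congr rfl fun k _ => mul_comm _ _
    have h2 := hf (w j) (subset_convexHull ℝ _ ⟨j, rfl⟩)
    rw [h1]
    have h3 : f (w j) = sgn (τ j) * f (v j) := by simp [hw]
    rw [map_zero] at hf0
    rw [← h3]
    linarith
  obtain ⟨ι, hι, z, wt, hz, haff, hpos, hsum1, hsum0⟩ := eq_pos_convex_span_of_mem_convexHull h0
  choose J hJ using fun i => hz (Set.mem_range_self i)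
  have hJinj : Function.Injective J := by
    intro p q hpq
    apply haff.injective
    rw [← hJ p, ← hJ q, hpq]
  set W : Fin n → ℝ := fun j => ∑ i, if J i = j then wt i else 0 with hW
  have hWJ : ∀ i, W (J i) = wt i := by
    intro i
    simp only [hW]
    rw [Finset.sum_eq_single i]
    · simp
    · intro b _ hb
      rw [if_neg (fun h => hb (hJinj h))]
    · intro h; exact absurd (Finset.mem_univ _) h
  set C0 : Finset (Fin n) := Finset.univ.image J with hC0
  have hWz : ∀ j, j ∉ C0 → W j = 0 := by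
    intro j hj
    simp only [hW]
    apply Finset.sum_eq_zero
    intro i _
    rw [if_neg]
    rintro rfl
    exact hj (Finset.mem_image_of_mem J (Finset.mem_univ i))
  have hWsum : ∑ j, W j • w j = 0 := by
    simp only [hW, Finset.sum_smul]
    rw [Finset.sum_comm, ← hsum0]
    refine Finset.sum_congr rfl fun i _ => ?_
    rw [Finset.sum_eq_single (J i)]
    · rw [if_pos rfl, hJ i]
    · intro b _ hb
      rw [if_neg (fun h => hb h.symm), zero_smul]
    · intro h; exact absurd (Finset.mem_univ _) h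
  have hGsum : ∀ (m : ℕ) (G : Finset (Fin n)) (hG : G.card = m), C0 ⊆ G →
      ∑ l : Fin m, (W (G.orderEmbOfFin hG l) * sgn (τ (G.orderEmbOfFin hG l))) •
        v (G.orderEmbOfFin hG l) = 0 := by
    intro m G hG hsub
    have h1 : ∑ j ∈ G, W j • w j = 0 := by
      rw [← hWsum]
      apply Finset.sum_subset (Finset.subset_univ G)
      intro j _ hj
      rw [hWz j (fun h => hj (hsub h)), zero_smul]
    have h2 : ∑ j ∈ G, W j • w j = ∑ l : Fin m, W (G.orderEmbOfFin hG l) •
        w (G.orderEmbOfFin hG l) := by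
      conv_lhs => rw [← Finset.map_orderEmbOfFin_univ G hG]
      rw [Finset.sum_map]
      rfl
    rw [← h1, h2]
    refine Finset.sum_congr rfl fun l _ => ?_
    simp only [hw]
    rw [smul_smul]
  have hcardC0 : C0.card = Fintype.card ι := by
    rw [hC0, Finset.card_image_of_injective _ hJinj, Finset.card_univ]
  have hle : Fintype.card ι ≤ d + 2 := by
    have h1 := haff.card_le_finrank_succ
    have h2 := Submodule.finrank_le (vectorSpan ℝ (Set.range z))
    rw [Module.finrank_fin_fun] at h2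
    omega
  have hnonempty : Nonempty ι := by
    by_contra h
    rw [not_nonempty_iff] at h
    simp at hsum1
  rcases Nat.lt_or_ge (Fintype.card ι) (d + 2) with hlt | hge
  · -- too few vectors: contradiction with linear independence
    obtain ⟨G, hG1, hG2⟩ := Finset.exists_superset_card_eq (s := C0) (n := d + 1)
      (by omega) (by simpa using hdn)
    have h1 := hL (G.orderEmbOfFin hG2) (G.orderEmbOfFin hG2).strictMono
    have hdet : (Matrix.of fun i => v (G.orderEmbOfFin hG2 i)).det ≠ 0 := by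
      intro h
      rw [h, mul_zero] at h1
      exact lt_irrefl _ h1
    have hli := Matrix.linearIndependent_rows_of_det_ne_zero hdet
    rw [Fintype.linearIndependent_iff] at hli
    have h2 := hli _ (hGsum (d + 1) G hG2 hG1)
    obtain ⟨i⟩ := hnonempty
    have hi : J i ∈ G := hG1 (Finset.mem_image_of_mem J (Finset.mem_univ i))
    obtain ⟨l, hl⟩ : ∃ l, G.orderEmbOfFin hG2 l = J i := by
      have : J i ∈ Set.range (G.orderEmbOfFin hG2) := by
        rw [Finset.range_orderEmbOfFin]
        exact hi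
      exact this
    have h3 := h2 l
    rw [hl, hWJ] at h3
    rcases mul_eq_zero.mp h3 with h | h
    · exact (hpos i).ne' h
    · exact sgn_ne _ h
  · have hcard : C0.card = d + 2 := by omega
    set C : Fin (d + 2) → Fin n := fun l => C0.orderEmbOfFin hcard l with hC
    have hCm : StrictMono C := (C0.orderEmbOfFin hcard).strictMono
    have hWpos : ∀ l, 0 < W (C l) := by
      intro l
      have : C l ∈ C0 := Finset.orderEmbOfFin_mem C0 hcard l
      obtain ⟨i, _, hi⟩ := Finset.mem_image.mp this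
      rw [← hi, hWJ]
      exact hpos i
    have hα : ∀ l, W (C l) * sgn (τ (C l)) ≠ 0 := fun l =>
      mul_ne_zero (hWpos l).ne' (sgn_ne _)
    have hsg := chain_sign hL C hCm (fun l => W (C l) * sgn (τ (C l))) hα
      (hGsum (d + 2) C0 hcard subset_rfl)
    have hrel : ∀ i : Fin (d + 1), sgn (τ (C i.castSucc)) * a i (C i.castSucc) =
        -(sgn (τ (C i.succ)) * a i (C i.succ)) := by
      intro i
      have h1 := hsg i
      have w1 := hWpos i.castSucc
      have w2 := hWpos i.succ
      have h2 : 0 < W (C i.castSucc) * W (C i.succ) := mul_pos w1 w2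
      have h3 : (W (C i.castSucc) * W (C i.succ)) *
          ((sgn (τ (C i.castSucc)) * a i (C i.castSucc)) *
            (sgn (τ (C i.succ)) * a i (C i.succ))) < 0 := by
        calc _ = W (C i.castSucc) * sgn (τ (C i.castSucc)) * (W (C i.succ) * sgn (τ (C i.succ))) *
              (a i (C i.castSucc) * a i (C i.succ)) := by ring
          _ < 0 := h1
      have h4 : (sgn (τ (C i.castSucc)) * a i (C i.castSucc)) *
            (sgn (τ (C i.succ)) * a i (C i.succ)) < 0 := by
        by_contra hcon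
        push Not at hcon
        have := mul_nonneg h2.le hcon
        linarith
      clear h1 hα hsg
      generalize τ (C i.castSucc : ℕ) = t1 at h4 ⊢
      generalize τ (C i.succ : ℕ) = t2 at h4 ⊢
      rcases ha i (C i.castSucc) with e1 | e1 <;> rcases ha i (C i.succ) with e2 | e2 <;>
        rw [e1, e2] at h4 ⊢ <;> cases t1 <;> cases t2 <;>
        simp [sgn] at h4 ⊢ <;> norm_num at h4
    have hch := path_chain ha τ C hCm hrel (d + 1) (by omega)
    have hlast : ((C ⟨d + 1, by omega⟩ : Fin n) : ℕ) ≤ n - 1 := by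
      have := (C ⟨d + 1, by omega⟩).2
      omega
    have := path_antitone (board a) (yOf τ) d hlast
    push_cast at hch
    omega

/-! ## From sign vectors to projective maps -/

theorem mem_extremePoints_of_lt {E : Type*} [AddCommGroup E] [Module ℝ E] (G : E →ₗ[ℝ] ℝ)
    {Y : Set E} {p : E} (hp : p ∈ Y) (h : ∀ y ∈ Y, y ≠ p → G p < G y) :
    p ∈ (convexHull ℝ Y).extremePoints ℝ := by
  have hconv : Convex ℝ {z : E | z = p ∨ G p < G z} := by
    intro z1 h1 z2 h2 s t hs ht hst
    rcases hs.eq_or_lt with rfl | hs'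
    · have : t = 1 := by linarith
      subst this
      simpa using h2
    rcases ht.eq_or_lt with rfl | ht'
    · have : s = 1 := by linarith
      subst this
      simpa using h1
    simp only [Set.mem_ofPred_eq] at h1 h2 ⊢
    have e : G p = s * G p + t * G p := by rw [← add_mul, hst, one_mul]
    rcases h1 with rfl | h1
    · rcases h2 with rfl | h2
      · left
        rw [← add_smul, hst, one_smul]
      · right
        rw [map_add, map_smul, map_smul, smul_eq_mul, smul_eq_mul]
        have := mul_lt_mul_of_pos_left h2 ht'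
        linarith
    · right
      rw [map_add, map_smul, map_smul, smul_eq_mul, smul_eq_mul]
      have h3 := mul_lt_mul_of_pos_left h1 hs'
      have h4 : t * G p ≤ t * G z2 := by
        apply mul_le_mul_of_nonneg_left _ ht
        rcases h2 with rfl | h2
        · exact le_rfl
        · exact h2.le
      linarith
  have hsub : convexHull ℝ Y ⊆ {z : E | z = p ∨ G p < G z} := by
    apply convexHull_min _ hconv
    intro y hy
    by_cases hyp : y = p
    · left; exact hyp
    · right; exact h y hy hyp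
  rw [mem_extremePoints]
  refine ⟨subset_convexHull ℝ Y hp, ?_⟩
  intro z1 h1 z2 h2 hseg
  obtain ⟨s, t, hs, ht, hst, he⟩ := hseg
  have k1 := hsub h1
  have k2 := hsub h2
  simp only [Set.mem_ofPred_eq] at k1 k2
  have e : s * G z1 + t * G z2 = s * G p + t * G p := by
    have : G p = s * G z1 + t * G z2 := by
      rw [← he, map_add, map_smul, map_smul, smul_eq_mul, smul_eq_mul]
    rw [← this, ← add_mul, hst, one_mul]
  have l1 : G p ≤ G z1 := by
    rcases k1 with rfl | k1
    · exact le_rfl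
    · exact k1.le
  have l2 : G p ≤ G z2 := by
    rcases k2 with rfl | k2
    · exact le_rfl
    · exact k2.le
  have m1 := mul_le_mul_of_nonneg_left l1 hs.le
  have m2 := mul_le_mul_of_nonneg_left l2 ht.le
  constructor
  · rcases k1 with k1 | k1
    · exact k1
    · have := mul_lt_mul_of_pos_left k1 hs
      linarith
  · rcases k2 with k2 | k2
    · exact k2
    · have := mul_lt_mul_of_pos_left k2 ht
      linarith

theorem dot_homog {d : ℕ} (u : Fin (d + 1) → ℝ) (x : Fin d → ℝ) :
    u ⬝ᵥ homog x = (fun i : Fin d => u i.castSucc) ⬝ᵥ x + u (Fin.last d) := by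
  simp [dotProduct, homog, Fin.sum_univ_castSucc]

theorem exists_perturb {d n : ℕ} (hn : 1 ≤ n) (x : Fin n → Fin d → ℝ) (τ : ℕ → Bool)
    (u : Fin (d + 1) → ℝ) (hu : ∀ j : Fin n, 0 < sgn (τ j) * (u ⬝ᵥ homog (x j))) :
    ∃ u' : Fin (d + 1) → ℝ, u' (Fin.last d) ≠ 0 ∧
      ∀ j : Fin n, 0 < sgn (τ j) * (u' ⬝ᵥ homog (x j)) := by
  by_cases hl : u (Fin.last d) = 0
  · have : Nonempty (Fin n) := ⟨⟨0, hn⟩⟩
    obtain ⟨j0, hj0⟩ := Finite.exists_min (fun j : Fin n => sgn (τ j) * (u ⬝ᵥ homog (x j)))
    set ε := (sgn (τ j0) * (u ⬝ᵥ homog (x j0))) / 2 with hε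
    have hε0 : 0 < ε := half_pos (hu j0)
    refine ⟨u + Pi.single (Fin.last d) ε, ?_, ?_⟩
    · simp [hl, hε0.ne']
    · intro j
      have h1 : (u + Pi.single (Fin.last d) ε) ⬝ᵥ homog (x j) = u ⬝ᵥ homog (x j) + ε := by
        rw [add_dotProduct, single_dotProduct]
        simp [homog]
      rw [h1, mul_add]
      have h2 := hj0 j
      have h3 : -ε ≤ sgn (τ j) * ε := by
        unfold sgn
        split_ifs <;> linarith
      have h4 : ε < sgn (τ j0) * (u ⬝ᵥ homog (x j0)) := half_lt_self (hu j0)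
      linarith
  · exact ⟨u, hl, hu⟩

theorem det_projMatrix {d : ℕ} (c : Fin d → ℝ) (δ : ℝ) :
    (projMatrix 1 0 c δ).det = δ := by
  have h : (Matrix.of fun (i : Fin d) (_ : Unit) => (0 : Fin d → ℝ) i) = 0 := by
    ext i j
    rfl
  rw [projMatrix, h, Matrix.det_fromBlocks_zero₁₂, Matrix.det_one, one_mul]
  simp

/-- Every `n`-point set of Lawrence type in `ℝ^d` with `d + 1 ≤ n ≤ 5 d / 2` can be mapped onto
the vertex set of a convex polytope by a permissible projective transformation. -/
theorem result {d n : ℕ} (hdn : d + 1 ≤ n) (h : 2 * n ≤ 5 * d) (x : Fin n → Fin d → ℝ)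
    (hx : IsLawrence x) : MapsToVertices (Finset.univ.image x) := by
  obtain ⟨a, ha, hL⟩ := hx
  obtain ⟨σ, h1, h2⟩ := exists_sigma (board a) d n (by omega) (by exact_mod_cast h)
  obtain ⟨u0, hu0⟩ := exists_functional hdn (v := fun j => homog (x j)) ha hL σ h1
  obtain ⟨u, hδ, hu⟩ := exists_perturb (by omega) x σ u0 hu0
  set c : Fin d → ℝ := fun i => u i.castSucc with hc
  set δ : ℝ := u (Fin.last d) with hδd
  have hden : ∀ j, c ⬝ᵥ x j + δ = u ⬝ᵥ homog (x j) := fun j => (dot_homog u (x j)).symm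
  have hden0 : ∀ j, c ⬝ᵥ x j + δ ≠ 0 := by
    intro j hj
    have := hu j
    rw [← hden, hj, mul_zero] at this
    exact lt_irrefl _ this
  refine ⟨1, 0, c, δ, ?_, ?_, ?_⟩
  · rw [det_projMatrix]
    exact hδ
  · intro p hp
    obtain ⟨j, _, rfl⟩ := Finset.mem_image.mp hp
    exact hden0 j
  · intro p hp
    obtain ⟨k, _, rfl⟩ := Finset.mem_image.mp hp
    obtain ⟨w, hw⟩ := exists_functional hdn (v := fun j => homog (x j)) ha hL _ (h2 k k.2)
    set G : (Fin d → ℝ) →ₗ[ℝ] ℝ :=
      ∑ i, (w i.castSucc - w (Fin.last d) * c i / δ) • LinearMap.proj (R := ℝ) i with hG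
    have hGz : ∀ z : Fin d → ℝ, G z =
        (fun i : Fin d => w i.castSucc) ⬝ᵥ z - w (Fin.last d) / δ * (c ⬝ᵥ z) := by
      intro z
      simp only [hG, LinearMap.sum_apply, LinearMap.smul_apply, LinearMap.proj_apply, smul_eq_mul,
        dotProduct, Finset.mul_sum, ← Finset.sum_sub_distrib]
      refine Finset.sum_congr rfl fun i _ => ?_
      ring
    have hval : ∀ j, G (projMap 1 0 c δ (x j)) + w (Fin.last d) / δ =
        (w ⬝ᵥ homog (x j)) / (u ⬝ᵥ homog (x j)) := by
      intro j
      have hd := hden0 j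
      rw [hGz, projMap, Matrix.one_mulVec, add_zero, dotProduct_smul, dotProduct_smul,
        dot_homog w, ← hden, smul_eq_mul, smul_eq_mul]
      field_simp
      ring
    have hpos : ∀ j, j ≠ k → 0 < G (projMap 1 0 c δ (x j)) + w (Fin.last d) / δ := by
      intro j hj
      rw [hval]
      have e1 := hw j
      have e2 := hu j
      have e3 : flipS k σ j = σ j := by
        unfold flipS
        rw [if_neg (fun hh => hj (Fin.ext hh))]
      rw [e3] at e1
      have e4 := mul_pos e1 e2
      have e5 : sgn (σ j) * (w ⬝ᵥ homog (x j)) * (sgn (σ j) * (u ⬝ᵥ homog (x j))) =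
          (w ⬝ᵥ homog (x j)) * (u ⬝ᵥ homog (x j)) := by
        calc _ = (sgn (σ j) * sgn (σ j)) * ((w ⬝ᵥ homog (x j)) * (u ⬝ᵥ homog (x j))) := by ring
          _ = _ := by rw [sgn_sq, one_mul]
      rw [e5] at e4
      rcases mul_pos_iff.mp e4 with ⟨p1, p2⟩ | ⟨p1, p2⟩
      · exact div_pos p1 p2
      · exact div_pos_of_neg_of_neg p1 p2
    have hneg : G (projMap 1 0 c δ (x k)) + w (Fin.last d) / δ < 0 := by
      rw [hval]
      have e1 := hw k
      have e2 := hu k
      have e3 : sgn (flipS k σ k) = - sgn (σ k) := by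
        unfold flipS
        rw [if_pos rfl]
        cases σ k <;> simp [sgn]
      rw [e3] at e1
      have e4 := mul_pos e1 e2
      have e5 : -sgn (σ k) * (w ⬝ᵥ homog (x k)) * (sgn (σ k) * (u ⬝ᵥ homog (x k))) =
          -((w ⬝ᵥ homog (x k)) * (u ⬝ᵥ homog (x k))) := by
        calc _ = -((sgn (σ k) * sgn (σ k)) * ((w ⬝ᵥ homog (x k)) * (u ⬝ᵥ homog (x k)))) := by ring
          _ = _ := by rw [sgn_sq, one_mul]
      rw [e5] at e4
      have e6 : (w ⬝ᵥ homog (x k)) * (u ⬝ᵥ homog (x k)) < 0 := by linarith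
      rcases mul_neg_iff.mp e6 with ⟨p1, p2⟩ | ⟨p1, p2⟩
      · exact div_neg_of_pos_of_neg p1 p2
      · exact div_neg_of_neg_of_pos p1 p2
    refine mem_extremePoints_of_lt G ?_ ?_
    · exact ⟨x k, by simp, rfl⟩
    · rintro y ⟨z, hz, rfl⟩ hne
      rw [Finset.mem_coe] at hz
      obtain ⟨j, _, rfl⟩ := Finset.mem_image.mp hz
      have hjk : j ≠ k := by
        rintro rfl
        exact hne rfl
      have := hpos j hjk
      linarith

end Pool.Agent.Results.MP_1e71f9_co.LawrenceType
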